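import Pool.Agent.Helper93.PL.St

/-!
# Project PL, part 2: properties of the limit law, uniformity in `x`
-/

set_option autoImplicit false

namespace Pool.Agent.Helper93.PL

open Finset Filter Topology
open Pool.Agent.Helper61.PV

/-- expectation for independent `N_p` (`p ≤ w`), binomial `(p, 1/p)`, conditioned on `N_p < p`; `LawW w j x = Ec w (fun n => pois j (x * eu n))`
by definition -/
noncomputable def Ec (w : ℕ) (G : (Pw w → ℕ) → ℝ) : ℝ :=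
  ∑ n ∈ Fintype.piFinset (fun p : Pw w => range p.1),
    (∏ p : Pw w, bw p.1 (n p) / (1 - (1 / (p.1 : ℝ)) ^ p.1)) * G n

/-- the proportion of the `v` with exactly `j` prime values `v(m)`, `1 ≤ m ≤ x Sz H d` -/
noncomputable def Rat (d H j : ℕ) (x : ℝ) : ℝ :=
  (Nat.card {v : Fin (d + 1) → ℤ // v ∈ Bxx d H ∧ NFD v ∧ nP v 0 (x * Sz H d) = j} : ℝ) /
    Nat.card {v : Fin (d + 1) → ℤ // v ∈ Bxx d H ∧ NFD v}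

/-- PA. From BM1 (`hBm1 : StBm1`). About 120 lines.

Proof. (1) `∏ (1 - x_p) ≥ 1 - ∑ x_p`, `x_p = p^(-p) ≤ 2^(-p)`, `∑_{n ≥ 2} 2^(-n) = 1/2`. (2) the weights: `∑_{n < p} bw p n = 1 - p^(-p)` by BM1 (`bw p p = p^(-p)`), `Finset.prod_univ_sum`.
(3) the weights are `∏ bw / Pst w ≤ 2 ∏ bw`, more terms on the right, all `≥ 0`. (4) weights `≥ 0`. (5) `1 - n/p > 0`, `1 - 1/p > 0`. -/
def StPa : Prop := (∀ w : ℕ, 1 / 2 ≤ Pst w) ∧ (∀ w : ℕ, Ec w (fun _ => 1) = 1) ∧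
  (∀ (w : ℕ) (G : (Pw w → ℕ) → ℝ), (∀ n, 0 ≤ G n) →
    Ec w G ≤ 2 * ∑ n ∈ Fintype.piFinset (fun p : Pw w => range (p.1 + 1)), (∏ p : Pw w, bw p.1 (n p)) * G n) ∧
  (∀ (w : ℕ) (G G' : (Pw w → ℕ) → ℝ), (∀ n ∈ Fintype.piFinset (fun p : Pw w => range p.1), G n ≤ G' n) →
    Ec w G ≤ Ec w G') ∧
  ∀ (w : ℕ) (n : Pw w → ℕ), n ∈ Fintype.piFinset (fun p : Pw w => range p.1) → 0 < eu n

/-- PB. From PA, BMO, SER (`hPa hBmo hSer`). About 100 lines.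

Proof. (1) PA (3) with `G n = |eu n|` (`= eu n` on both index sets, as `1 - n_p/p ≥ 0` for `n_p ≤ p`) and BMO. (2) SER (Lipschitz) and (1). (3) `pois 0 0 = 1`, PA (2). (4) `e^(-y b) ≤ e^(-x b)`.
(5) for `b > 0`: `e^(-x b) ≥ e^(-4x) (1 - b/4)`, so the expectation is `≥ e^(-4x) (1 - 2/4)`. -/
def StPb : Prop := (∀ w : ℕ, Ec w (fun n => eu n) ≤ 2) ∧
  (∀ (w j : ℕ) (x y : ℝ), 0 ≤ x → 0 ≤ y → |LawW w j x - LawW w j y| ≤ 2 * |x - y|) ∧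
  (∀ w : ℕ, LawW w 0 0 = 1) ∧
  (∀ (w : ℕ) (x y : ℝ), 0 ≤ x → x ≤ y → LawW w 0 y ≤ LawW w 0 x) ∧
  ∀ (w : ℕ) (x : ℝ), 0 ≤ x → Real.exp (-(4 * x)) / 2 ≤ LawW w 0 x

/-- PC. From PA, PB (`hPa hPb`). About 100 lines.

Proof. For `y ≥ 0`: `1 - y/J ≤ ∑_{j < J} pois j y ≤ 1`: `∑_j y^j/j! = e^y`, and `∑_{j ≥ J} pois j y ≤ ∑_j (j/J) pois j y = y/J`. Take expectations (`y = x b`, `E b ≤ 2`). -/
def StPc : Prop := ∀ (w J : ℕ) (x : ℝ), 0 ≤ x → 1 ≤ J →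
  1 - 2 * x / J ≤ ∑ j ∈ range J, LawW w j x ∧ ∑ j ∈ range J, LawW w j x ≤ 1

/-- PD (Jensen). From PA (`hPa`). About 60 lines.

Proof. `pois 0 (θ X b) = (pois 0 (X b))^θ` (`pois 0 y = e^(-y)`), and `t ↦ t^θ` is concave on `[0, ∞)`: the weights are `≥ 0` with sum `1` (`Real.concaveOn_rpow`, `ConcaveOn.le_map_sum`). -/
def StPd : Prop := ∀ (w : ℕ) (X θ : ℝ), 0 ≤ X → 0 < θ → θ ≤ 1 → LawW w 0 (θ * X) ≤ LawW w 0 X ^ θ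

/-- KA (the limits; `L j x` is the limit of `LawW w j x`). From FIN, LWB, PB, PC, PD and the final theorem of project PV:
`(hFin : Pool.Agent.Helper93.PL.StFin) (hLwb : StLwb) (hPb : StPb) (hPc : StPc) (hPd : StPd) (hPv : Pool.Agent.Helper61.PV.StFin)`. About 200 lines.

Proof. `L j x` from FIN (choice) for `x > 0`; FIN gives the two first properties of the conclusion. By PB in the limit: `L 0` is nonincreasing, `L 0 x ≥ e^(-4x)/2 > 0`, `|L 0 x - 1| ≤ 2x`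
(`LawW w 0 0 = 1`). `L 0 x → 0`: for `ε > 0` take `C` (and `H₀`)
from the theorem of PV (at most `ε #{NFD}` of the `v ∈ Bxx`, NFD, have no prime value at `1 ≤ m ≤ C S`, for `d log H ≤ H^(1/3)`, `H` large); such a `v` not in the exceptional set has `nP v 0 (C S) ≥ 1`, so `Rat d H 0 C ≤ ε`, and by
FIN `L 0 C ≤ 2ε` (take some `d, H` large); monotone. `L 0 x < 1`: take `X ≥ x` with `L 0 X ≤ 1/2`; PD with `θ = x/X` in the limit (`Real.continuousAt_rpow_const`, `Tendsto.rpow_const`): `L 0 x ≤ (L 0 X)^θ < 1`.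
`HasSum`: `L j x ≥ 0` (LWB), the partial sums are in `[1 - 2x/J, 1]` by PC in the limit; so the sum is `1` (`hasSum_iff_tendsto_nat_of_nonneg`). -/
def StKa : Prop := ∃ L : ℕ → ℝ → ℝ,
  (∀ (j : ℕ) (x : ℝ), 0 < x → Tendsto (fun w => LawW w j x) atTop (𝓝 (L j x))) ∧
  (∀ (j : ℕ) (x ε : ℝ), 0 < x → 0 < ε → ∃ (c : ℝ) (D₀ H₀ : ℕ), 0 < c ∧ ∀ d H : ℕ, D₀ ≤ d → H₀ ≤ H →
    (d : ℝ) ≤ (H : ℝ) ^ c → |Rat d H j x - L j x| ≤ ε) ∧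
  (∀ x : ℝ, 0 < x → 0 < L 0 x ∧ L 0 x < 1 ∧ (∀ j, 0 ≤ L j x) ∧ HasSum (fun j => L j x) 1) ∧
  (∀ x y : ℝ, 0 < x → x ≤ y → L 0 y ≤ L 0 x) ∧
  (∀ x y : ℝ, 0 < x → 0 < y → |L 0 x - L 0 y| ≤ 2 * |x - y|) ∧
  Tendsto (L 0) (𝓝[>] 0) (𝓝 1) ∧ Tendsto (L 0) atTop (𝓝 0)

/-- KB (uniformity in `x`). No hypotheses. About 120 lines.

Proof. `X` with `L0 X ≤ ε/4`, `N` with `N ε ≥ 8 X`, the points `x_i = i X/N`, `1 ≤ i ≤ N`; take `c` = minimum, `D₀, H₀` = maxima of the values for these finitely many points and `ε/4` (`(H : ℝ)^c` is increasing in `c` for `H ≥ 1`, so `d ≤ H^c`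
holds for the larger ones). `Rat0 d H x` is nonincreasing in `x`, in `[0,1]`. For `x ∈ (x_i, x_(i+1)]`: `R(x) ≤ R(x_i) ≤ L(x_i) + ε/4 ≤ L(x) + 2 X/N + ε/4`, `R(x) ≥ R(x_(i+1)) ≥ L(x) - ..`; for `x ≤ x_1`: `R(x) ≤ 1` and `L(x) ≥ 1 - ε/4`
(`1 - L0 x ≤ 2x`, by the limit at `0` and the Lipschitz bound); for `x ≥ X`: `0 ≤ R(x) ≤ R(X) ≤ ε/2`, `0 ≤ L(x) ≤ ε/4`. -/
def StKb : Prop := ∀ (R : ℕ → ℕ → ℝ → ℝ) (L : ℝ → ℝ),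
  (∀ d H x, 0 ≤ R d H x ∧ R d H x ≤ 1) → (∀ d H x y, x ≤ y → R d H y ≤ R d H x) →
  (∀ x, 0 < x → 0 ≤ L x ∧ L x ≤ 1) → (∀ x y : ℝ, 0 < x → x ≤ y → L y ≤ L x) →
  (∀ x y : ℝ, 0 < x → 0 < y → |L x - L y| ≤ 2 * |x - y|) →
  Tendsto L (𝓝[>] 0) (𝓝 1) → Tendsto L atTop (𝓝 0) →
  (∀ x ε : ℝ, 0 < x → 0 < ε → ∃ (c : ℝ) (D₀ H₀ : ℕ), 0 < c ∧ ∀ d H : ℕ, D₀ ≤ d → H₀ ≤ H →
    (d : ℝ) ≤ (H : ℝ) ^ c → |R d H x - L x| ≤ ε) →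
  ∀ ε : ℝ, 0 < ε → ∃ (c : ℝ) (D₀ H₀ : ℕ), 0 < c ∧ ∀ d H : ℕ, D₀ ≤ d → H₀ ≤ H →
    (d : ℝ) ≤ (H : ℝ) ^ c → ∀ x : ℝ, 0 < x → |R d H x - L x| ≤ ε

/-- IRD (almost all are irreducible). From the theorem of project PV (`hPv : Pool.Agent.Helper61.PV.StFin`). About 80 lines.

Proof. PV gives for `d log H ≤ H^(1/3)`, `H` large, `d ≥ 1`: at most `ε #{NFD}` of the `v` are NFD and not (irreducible and ..). For `D₀ ≤ d`, `(d : ℝ) ≤ H^(1/4)`, `H` large, `d log H ≤ H^(1/3)`. -/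
def StIrd : Prop := ∀ ε : ℝ, 0 < ε → ∃ (D₀ H₀ : ℕ), ∀ d H : ℕ, D₀ ≤ d → H₀ ≤ H → (d : ℝ) ≤ (H : ℝ) ^ (1 / 4 : ℝ) →
  (Nat.card {v : Fin (d + 1) → ℤ // v ∈ Bxx d H ∧ NFD v ∧ ¬ Irreducible (pol v)} : ℝ) ≤
    ε * Nat.card {v : Fin (d + 1) → ℤ // v ∈ Bxx d H ∧ NFD v}

end Pool.Agent.Helper93.PL
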