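import Pool.Agent.Helper61.PV.All
import Pool.Agent.Helper93.PL.St2
import Pool.Agent.Helper82.PL.M_Kdg
import Pool.Agent.Helper66.PL.M_Ite
import Pool.Agent.Helper97.PL.M_Kmu
import Pool.Agent.Helper29.PL.M_Kml
import Pool.Agent.Helper76.PL.M_Szr
import Pool.Agent.Helper45.PL.M_Nuk
import Pool.Agent.Helper79.PL.M_Mok
import Pool.Agent.Helper37.PL.M_Mot
import Pool.Agent.Helper54.PL.M_Mer
import Pool.Agent.Helper65.PL.M_Rh1
import Pool.Agent.Helper38.PL.M_Rh2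
import Pool.Agent.Helper98.PL.M_Rh3
import Pool.Agent.Helper9.PL.M_Rhk
import Pool.Agent.Helper71.PL.M_Nus
import Pool.Agent.Helper45.PL.M_Alw
import Pool.Agent.Helper80.PL.M_Cho
import Pool.Agent.Helper63.PL.M_Cl1
import Pool.Agent.Helper9.PL.M_Cl2
import Pool.Agent.Helper87.PL.M_Clm
import Pool.Agent.Helper28.PL.M_Bof
import Pool.Agent.Helper45.PL.M_Ser
import Pool.Agent.Helper29.PL.M_Lc1
import Pool.Agent.Helper19.PL.M_Eul
import Pool.Agent.Helper18.PL.M_Un1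
import Pool.Agent.Helper61.PL.M_Crp
import Pool.Agent.Helper32.PL.M_Uni
import Pool.Agent.Helper64.PL.M_Bxc
import Pool.Agent.Helper22.PL.M_Bm1
import Pool.Agent.Helper86.PL.M_Bm2
import Pool.Agent.Helper10.PL.M_Bmo
import Pool.Agent.Helper42.PL.M_Fac
import Pool.Agent.Helper38.PL.M_Cls
import Pool.Agent.Helper83.PL.M_Tot
import Pool.Agent.Helper1.PL.M_Lwb
import Pool.Agent.Helper69.PL.M_Stw
import Pool.Agent.Helper87.PL.M_Fi1
import Pool.Agent.Helper58.PL.M_Fin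
import Pool.Agent.Helper72.PL.M_Pa
import Pool.Agent.Helper45.PL.M_Pb
import Pool.Agent.Helper6.PL.M_Pc
import Pool.Agent.Helper34.PL.M_Pd
import Pool.Agent.Helper7.PL.M_Ka
import Pool.Agent.Helper37.PL.M_Kb
import Pool.Agent.Helper78.PL.M_Ird

/-!
# Project PL: assembly
-/

set_option autoImplicit false

namespace Pool.Agent.Helper93.PL

theorem tKdg : Pool.Agent.Helper93.PL.StKdg := Pool.Agent.Helper82.PL.hKdg Pool.Agent.Helper61.PV.tDig
theorem tIte : Pool.Agent.Helper93.PL.StIte := Pool.Agent.Helper66.PL.hIte 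
theorem tKmu : Pool.Agent.Helper93.PL.StKmu := Pool.Agent.Helper97.PL.hKmu Pool.Agent.Helper61.PV.tTra tKdg tIte
theorem tKml : Pool.Agent.Helper93.PL.StKml := Pool.Agent.Helper29.PL.hKml Pool.Agent.Helper61.PV.tTra tKdg tIte
theorem tSzr : Pool.Agent.Helper93.PL.StSzr := Pool.Agent.Helper76.PL.hSzr Pool.Agent.Helper61.PV.tSiz
theorem tNuk : Pool.Agent.Helper93.PL.StNuk := Pool.Agent.Helper45.PL.hNuk 
theorem tMok : Pool.Agent.Helper93.PL.StMok := Pool.Agent.Helper79.PL.hMok tKmu tKml Pool.Agent.Helper61.PV.tCar tSzr Pool.Agent.Helper61.PV.tApp tNuk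
theorem tMot : Pool.Agent.Helper93.PL.StMot := Pool.Agent.Helper37.PL.hMot tMok
theorem tMer : Pool.Agent.Helper93.PL.StMer := Pool.Agent.Helper54.PL.hMer 
theorem tRh1 : Pool.Agent.Helper93.PL.StRh1 := Pool.Agent.Helper65.PL.hRh1 
theorem tRh2 : Pool.Agent.Helper93.PL.StRh2 := Pool.Agent.Helper38.PL.hRh2 
theorem tRh3 : Pool.Agent.Helper93.PL.StRh3 := Pool.Agent.Helper98.PL.hRh3 
theorem tRhk : Pool.Agent.Helper93.PL.StRhk := Pool.Agent.Helper9.PL.hRhk tMer tRh1 tRh2 tRh3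
theorem tNus : Pool.Agent.Helper93.PL.StNus := Pool.Agent.Helper71.PL.hNus 
theorem tAlw : Pool.Agent.Helper93.PL.StAlw := Pool.Agent.Helper45.PL.hAlw 
theorem tCho : Pool.Agent.Helper93.PL.StCho := Pool.Agent.Helper80.PL.hCho 
theorem tCl1 : Pool.Agent.Helper93.PL.StCl1 := Pool.Agent.Helper63.PL.hCl1 tNus tSzr
theorem tCl2 : Pool.Agent.Helper93.PL.StCl2 := Pool.Agent.Helper9.PL.hCl2 tRhk tAlw tCho
theorem tClm : Pool.Agent.Helper93.PL.StClm := Pool.Agent.Helper87.PL.hClm tCl1 tCl2 tMot Pool.Agent.Helper61.PV.tCar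
theorem tBof : Pool.Agent.Helper93.PL.StBof := Pool.Agent.Helper28.PL.hBof 
theorem tSer : Pool.Agent.Helper93.PL.StSer := Pool.Agent.Helper45.PL.hSer 
theorem tLc1 : Pool.Agent.Helper93.PL.StLc1 := Pool.Agent.Helper29.PL.hLc1 tClm tBof tSer Pool.Agent.Helper61.PV.tCar
theorem tEul : Pool.Agent.Helper93.PL.StEul := Pool.Agent.Helper19.PL.hEul 
theorem tUn1 : Pool.Agent.Helper93.PL.StUn1 := Pool.Agent.Helper18.PL.hUn1 
theorem tCrp : Pool.Agent.Helper93.PL.StCrp := Pool.Agent.Helper61.PL.hCrp 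
theorem tUni : Pool.Agent.Helper93.PL.StUni := Pool.Agent.Helper32.PL.hUni tUn1 tCrp
theorem tBxc : Pool.Agent.Helper93.PL.StBxc := Pool.Agent.Helper64.PL.hBxc Pool.Agent.Helper61.PV.tCar
theorem tBm1 : Pool.Agent.Helper93.PL.StBm1 := Pool.Agent.Helper22.PL.hBm1 
theorem tBm2 : Pool.Agent.Helper93.PL.StBm2 := Pool.Agent.Helper86.PL.hBm2 
theorem tBmo : Pool.Agent.Helper93.PL.StBmo := Pool.Agent.Helper10.PL.hBmo tBm1 tBm2
theorem tFac : Pool.Agent.Helper93.PL.StFac := Pool.Agent.Helper42.PL.hFac 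
theorem tCls : Pool.Agent.Helper93.PL.StCls := Pool.Agent.Helper38.PL.hCls 
theorem tTot : Pool.Agent.Helper93.PL.StTot := Pool.Agent.Helper83.PL.hTot tLc1 tEul tUni tBxc tBmo tFac tSer Pool.Agent.Helper61.PV.tBox tCls Pool.Agent.Helper61.PV.tCar
theorem tLwb : Pool.Agent.Helper93.PL.StLwb := Pool.Agent.Helper1.PL.hLwb tSer tBm1
theorem tStw : Pool.Agent.Helper93.PL.StStw := Pool.Agent.Helper69.PL.hStw Pool.Agent.Helper61.PV.tSa1
theorem tFi1 : Pool.Agent.Helper93.PL.StFi1 := Pool.Agent.Helper87.PL.hFi1 tTot tStw Pool.Agent.Helper61.PV.tTop Pool.Agent.Helper61.PV.tLow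
theorem tFin : Pool.Agent.Helper93.PL.StFin := Pool.Agent.Helper58.PL.hFin tFi1 tLwb Pool.Agent.Helper61.PV.tSta
theorem tPa : Pool.Agent.Helper93.PL.StPa := Pool.Agent.Helper72.PL.hPa tBm1
theorem tPb : Pool.Agent.Helper93.PL.StPb := Pool.Agent.Helper45.PL.hPb tPa tBmo tSer
theorem tPc : Pool.Agent.Helper93.PL.StPc := Pool.Agent.Helper6.PL.hPc tPa tPb
theorem tPd : Pool.Agent.Helper93.PL.StPd := Pool.Agent.Helper34.PL.hPd tPa
theorem tKa : Pool.Agent.Helper93.PL.StKa := Pool.Agent.Helper7.PL.hKa tFin tLwb tPb tPc tPd Pool.Agent.Helper61.PV.tFin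
theorem tKb : Pool.Agent.Helper93.PL.StKb := Pool.Agent.Helper37.PL.hKb 
theorem tIrd : Pool.Agent.Helper93.PL.StIrd := Pool.Agent.Helper78.PL.hIrd Pool.Agent.Helper61.PV.tFin

end Pool.Agent.Helper93.PL
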