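import Pool.Agent.Helper93.PL.St2
import Pool.Agent.Helper61.PV.Tr

/-!
# Project PL: final form for irreducible polynomials
-/

set_option autoImplicit false

namespace Pool.Agent.Helper93.PL

open Finset Filter Topology
open Pool.Agent.Helper61.PV

/-- as `Rat`, for irreducible polynomials -/
noncomputable def RatI (d H j : ℕ) (x : ℝ) : ℝ :=
  (Nat.card {v : Fin (d + 1) → ℤ // v ∈ Bxx d H ∧ (Irreducible (pol v) ∧ NFD v) ∧ nP v 0 (x * Sz H d) = j} : ℝ) /
    Nat.card {v : Fin (d + 1) → ℤ // v ∈ Bxx d H ∧ (Irreducible (pol v) ∧ NFD v)}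

theorem card_eq {d H : ℕ} (P : (Fin (d + 1) → ℤ) → Prop) [DecidablePred P] :
    Nat.card {v : Fin (d + 1) → ℤ // v ∈ Bxx d H ∧ P v} = #((Bxx d H).filter P) := by
  rw [← Nat.subtype_card ((Bxx d H).filter P) (fun v => by rw [Finset.mem_filter])]

theorem rat_close {d H j : ℕ} {x e : ℝ} (he : 0 ≤ e) (he2 : e ≤ 1 / 2)
    (h : (Nat.card {v : Fin (d + 1) → ℤ // v ∈ Bxx d H ∧ NFD v ∧ ¬ Irreducible (pol v)} : ℝ) ≤
      e * Nat.card {v : Fin (d + 1) → ℤ // v ∈ Bxx d H ∧ NFD v}) :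
    |RatI d H j x - Rat d H j x| ≤ 2 * e := by
  classical
  unfold RatI Rat
  simp only [card_eq (H := H)] at h ⊢
  set A : Finset (Fin (d + 1) → ℤ) := (Bxx d H).filter (fun v => NFD v ∧ nP v 0 (x * Sz H d) = j) with hA
  set D : Finset (Fin (d + 1) → ℤ) := (Bxx d H).filter (fun v => NFD v) with hD
  set A' : Finset (Fin (d + 1) → ℤ) := (Bxx d H).filter
    (fun v => (Irreducible (pol v) ∧ NFD v) ∧ nP v 0 (x * Sz H d) = j) with hA'
  set D' : Finset (Fin (d + 1) → ℤ) := (Bxx d H).filter (fun v => Irreducible (pol v) ∧ NFD v) with hD'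
  set E : Finset (Fin (d + 1) → ℤ) := (Bxx d H).filter (fun v => NFD v ∧ ¬ Irreducible (pol v)) with hE
  have h1 : A' ⊆ A := by
    intro v hv
    rw [hA', mem_filter] at hv
    rw [hA, mem_filter]
    exact ⟨hv.1, hv.2.1.2, hv.2.2⟩
  have h2 : A ⊆ D := by
    intro v hv
    rw [hA, mem_filter] at hv
    rw [hD, mem_filter]
    exact ⟨hv.1, hv.2.1⟩
  have h3 : D = D' ∪ E := by
    ext v
    rw [hD, hD', hE, mem_union, mem_filter, mem_filter, mem_filter]
    by_cases hI : Irreducible (pol v) <;> tauto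
  have h4 : Disjoint D' E := by
    rw [Finset.disjoint_left]
    intro v hv hv'
    rw [hD', mem_filter] at hv
    rw [hE, mem_filter] at hv'
    exact hv'.2.2 hv.2.1
  have h5 : (#D : ℝ) = #D' + #E := by
    rw [h3, Finset.card_union_of_disjoint h4]; push_cast; ring
  have h6 : A ⊆ A' ∪ E := by
    intro v hv
    rw [hA, mem_filter] at hv
    rw [hA', hE, mem_union, mem_filter, mem_filter]
    by_cases hI : Irreducible (pol v)
    · left; exact ⟨hv.1, ⟨hI, hv.2.1⟩, hv.2.2⟩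
    · right; exact ⟨hv.1, hv.2.1, hI⟩
  have h7 : (#A : ℝ) ≤ #A' + #E := by
    have := (Finset.card_le_card h6).trans (Finset.card_union_le _ _)
    exact_mod_cast this
  have h8 : (#A' : ℝ) ≤ #A := by exact_mod_cast Finset.card_le_card h1
  have h9 : (#A : ℝ) ≤ #D := by exact_mod_cast Finset.card_le_card h2
  have hE0 : (0 : ℝ) ≤ #E := Nat.cast_nonneg _
  have hA0 : (0 : ℝ) ≤ #A := Nat.cast_nonneg _
  have hA'0 : (0 : ℝ) ≤ #A' := Nat.cast_nonneg _
  rcases eq_or_lt_of_le (Nat.cast_nonneg (α := ℝ) #D) with h0 | h0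
  · have hz : (#D' : ℝ) = 0 := by
      have : (0 : ℝ) ≤ #D' := Nat.cast_nonneg _
      linarith
    rw [← h0, hz]
    simp only [div_zero, sub_zero, abs_zero]
    linarith
  · have hD'0 : (#D : ℝ) / 2 ≤ #D' := by
      have : (#E : ℝ) ≤ 1 / 2 * #D := h.trans (mul_le_mul_of_nonneg_right he2 h0.le)
      linarith
    have hD'1 : (0 : ℝ) < #D' := by linarith
    have e1 : (#A' : ℝ) / #D' - #A / #D = (#A' * #D - #A * #D') / (#D' * #D) := by
      field_simp
    rw [e1, abs_div, abs_of_pos (mul_pos hD'1 h0), div_le_iff₀ (mul_pos hD'1 h0), abs_le]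
    have h10 : (#E : ℝ) * #D ≤ 2 * e * (#D' * #D) := by
      have : (#E : ℝ) ≤ 2 * e * #D' := by
        calc (#E : ℝ) ≤ e * #D := h
          _ ≤ e * (2 * #D') := mul_le_mul_of_nonneg_left (by linarith) he
          _ = 2 * e * #D' := by ring
      calc (#E : ℝ) * #D ≤ (2 * e * #D') * #D := mul_le_mul_of_nonneg_right this h0.le
        _ = 2 * e * (#D' * #D) := by ring
    constructor
    · have : -((#E : ℝ) * #D) ≤ #A' * #D - #A * #D' := by
        have hD'D : (#D' : ℝ) ≤ #D := by linarith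
        have k1 : (#A : ℝ) * #D' ≤ #A * #D := mul_le_mul_of_nonneg_left hD'D hA0
        have k2 : (#A : ℝ) * #D ≤ (#A' + #E) * #D := mul_le_mul_of_nonneg_right h7 h0.le
        nlinarith [k1, k2]
      linarith
    · have : (#A' : ℝ) * #D - #A * #D' ≤ #E * #D := by
        have k1 : (#A' : ℝ) * #D ≤ #A * #D := mul_le_mul_of_nonneg_right h8 h0.le
        have k2 : (#A : ℝ) * #E ≤ #D * #E := mul_le_mul_of_nonneg_right h9 hE0
        have k3 : (#A : ℝ) * #D' = #A * #D - #A * #E := by rw [h5]; ring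
        rw [k3]
        nlinarith [k1, k2]
      linarith

theorem Sz_nonneg (H d : ℕ) : 0 ≤ Sz H d := by
  unfold Sz
  have h1 : 0 ≤ Real.log H := by
    rcases Nat.eq_zero_or_pos H with h | h
    · rw [h]; simp
    · exact Real.log_nonneg (by exact_mod_cast h)
  rcases Nat.eq_zero_or_pos d with h | h
  · rw [h]; simpa using h1
  · have h2 : (1 : ℝ) ≤ d := by exact_mod_cast h
    have h3 : 0 ≤ Real.log (d + Real.log H) := Real.log_nonneg (by linarith)
    positivity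

theorem Rat_range (d H j : ℕ) (x : ℝ) : 0 ≤ Rat d H j x ∧ Rat d H j x ≤ 1 := by
  classical
  unfold Rat
  refine ⟨by positivity, ?_⟩
  apply div_le_one_of_le₀ _ (Nat.cast_nonneg _)
  simp only [card_eq (H := H)]
  norm_cast
  apply Finset.card_le_card
  intro v hv
  rw [mem_filter] at hv ⊢
  exact ⟨hv.1, hv.2.1⟩

theorem nP_mono {d : ℕ} (v : Fin (d + 1) → ℤ) (y : ℝ) {z z' : ℝ} (h : z ≤ z') : nP v y z ≤ nP v y z' := by
  unfold nP
  apply Finset.card_le_card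
  intro m hm
  rw [mem_filter, mem_range] at hm ⊢
  exact ⟨lt_of_lt_of_le hm.1 (Nat.succ_le_succ (Nat.floor_mono h)), hm.2⟩

theorem Rat_mono (d H : ℕ) (x y : ℝ) (h : x ≤ y) : Rat d H 0 y ≤ Rat d H 0 x := by
  classical
  unfold Rat
  apply div_le_div_of_nonneg_right _ (Nat.cast_nonneg _)
  simp only [card_eq (H := H)]
  norm_cast
  apply Finset.card_le_card
  intro v hv
  rw [mem_filter] at hv ⊢
  refine ⟨hv.1, hv.2.1, ?_⟩
  have h1 := nP_mono v 0 (mul_le_mul_of_nonneg_right h (Sz_nonneg H d))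
  rw [hv.2.2] at h1
  exact Nat.le_zero.1 h1

/-- the final theorem for coefficient vectors -/
theorem out (hKa : StKa) (hKb : StKb) (hIrd : StIrd) : ∃ L : ℕ → ℝ → ℝ,
    (∀ (j : ℕ) (x : ℝ), 0 < x → Tendsto (fun w => LawW w j x) atTop (𝓝 (L j x))) ∧
    (∀ x : ℝ, 0 < x → 0 < L 0 x ∧ L 0 x < 1 ∧ (∀ j, 0 ≤ L j x) ∧ HasSum (fun j => L j x) 1) ∧
    (∀ x y : ℝ, 0 < x → x ≤ y → L 0 y ≤ L 0 x) ∧
    (∀ x y : ℝ, 0 < x → 0 < y → |L 0 x - L 0 y| ≤ 2 * |x - y|) ∧
    Tendsto (L 0) (𝓝[>] 0) (𝓝 1) ∧ Tendsto (L 0) atTop (𝓝 0) ∧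
    (∀ (j : ℕ) (x ε : ℝ), 0 < x → 0 < ε → ∃ (c : ℝ) (D₀ H₀ : ℕ), 0 < c ∧ ∀ d H : ℕ, D₀ ≤ d → H₀ ≤ H →
      (d : ℝ) ≤ (H : ℝ) ^ c → |RatI d H j x - L j x| ≤ ε) ∧
    (∀ ε : ℝ, 0 < ε → ∃ (c : ℝ) (D₀ H₀ : ℕ), 0 < c ∧ ∀ d H : ℕ, D₀ ≤ d → H₀ ≤ H →
      (d : ℝ) ≤ (H : ℝ) ^ c → ∀ x : ℝ, 0 < x → |RatI d H 0 x - L 0 x| ≤ ε) := by
  obtain ⟨L, h1, h2, h3, h4, h5, h6, h7⟩ := hKa
  have hpow : ∀ {H : ℕ} {c c' : ℝ} {d : ℕ}, 1 ≤ H → c ≤ c' → (d : ℝ) ≤ (H : ℝ) ^ c → (d : ℝ) ≤ (H : ℝ) ^ c' := by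
    intro H c c' d hH hc hd
    exact hd.trans (Real.rpow_le_rpow_of_exponent_le (by exact_mod_cast hH) hc)
  refine ⟨L, h1, h3, h4, h5, h6, h7, ?_, ?_⟩
  · intro j x ε hx hε
    obtain ⟨c, D₀, H₀, hc, h⟩ := h2 j x (ε / 2) hx (half_pos hε)
    set e : ℝ := min (ε / 4) (1 / 2) with he
    have he0 : 0 < e := lt_min (by linarith) (by norm_num)
    obtain ⟨D₁, H₁, h'⟩ := hIrd e he0
    refine ⟨min c (1 / 4), max D₀ D₁, max (max H₀ H₁) 1, lt_min hc (by norm_num), ?_⟩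
    intro d H hd hH hdH
    have hH1 : 1 ≤ H := le_trans (le_max_right _ _) hH
    have a1 := h d H (le_trans (le_max_left _ _) hd)
      (le_trans (le_trans (le_max_left _ _) (le_max_left _ _)) hH) (hpow hH1 (min_le_left _ _) hdH)
    have a2 := rat_close (j := j) (x := x) he0.le (min_le_right _ _)
      (h' d H (le_trans (le_max_right _ _) hd)
        (le_trans (le_trans (le_max_right _ _) (le_max_left _ _)) hH) (hpow hH1 (min_le_right _ _) hdH))
    have a3 : 2 * e ≤ ε / 2 := by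
      have := min_le_left (ε / 4) (1 / 2 : ℝ)
      linarith
    calc |RatI d H j x - L j x| ≤ |RatI d H j x - Rat d H j x| + |Rat d H j x - L j x| := abs_sub_le _ _ _
      _ ≤ ε := by linarith
  · have hL : ∀ x, 0 < x → 0 ≤ L 0 x ∧ L 0 x ≤ 1 := fun x hx => ⟨(h3 x hx).1.le, (h3 x hx).2.1.le⟩
    have hK := hKb (fun d H x => Rat d H 0 x) (L 0) (fun d H x => Rat_range d H 0 x)
      (fun d H x y hxy => Rat_mono d H x y hxy) hL h4 h5 h6 h7 (fun x ε hx hε => h2 0 x ε hx hε)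
    intro ε hε
    obtain ⟨c, D₀, H₀, hc, h⟩ := hK (ε / 2) (half_pos hε)
    set e : ℝ := min (ε / 4) (1 / 2) with he
    have he0 : 0 < e := lt_min (by linarith) (by norm_num)
    obtain ⟨D₁, H₁, h'⟩ := hIrd e he0
    refine ⟨min c (1 / 4), max D₀ D₁, max (max H₀ H₁) 1, lt_min hc (by norm_num), ?_⟩
    intro d H hd hH hdH x hx
    have hH1 : 1 ≤ H := le_trans (le_max_right _ _) hH
    have a1 := h d H (le_trans (le_max_left _ _) hd)
      (le_trans (le_trans (le_max_left _ _) (le_max_left _ _)) hH) (hpow hH1 (min_le_left _ _) hdH) x hx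
    have a2 := rat_close (j := 0) (x := x) he0.le (min_le_right _ _)
      (h' d H (le_trans (le_max_right _ _) hd)
        (le_trans (le_trans (le_max_right _ _) (le_max_left _ _)) hH) (hpow hH1 (min_le_right _ _) hdH))
    have a3 : 2 * e ≤ ε / 2 := by
      have := min_le_left (ε / 4) (1 / 2 : ℝ)
      linarith
    calc |RatI d H 0 x - L 0 x| ≤ |RatI d H 0 x - Rat d H 0 x| + |Rat d H 0 x - L 0 x| := abs_sub_le _ _ _
      _ ≤ ε := by
        have a1' : |Rat d H 0 x - L 0 x| ≤ ε / 2 := a1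
        linarith

end Pool.Agent.Helper93.PL
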