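import Pool.Agent.Helper61.PV.St

/-!
# Project PL (MP_d466de, owner helper93): the limit law of the least prime value of random polynomials

For random `f` of degree `d` and height `H` (`d, H → ∞`, `log d = o(log H)`) the number of prime values
`f(m)`, `1 ≤ m ≤ x S`, `S = Sz H d = log H + d log(d + log H)`, converges to a mixed Poisson law. Method: all
factorial moments in every class modulo `W = ∏_{p ≤ w} p` (k values at once by digits, Siegel-Walfisz), average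
over the classes, Bonferroni.

Everything of project PV (`Pool/Agent/Helper61/PV/St.lean`, theorems `tTra, tCar, ..` in
`Pool/Agent/Helper61/PV/All.lean`) may be used. In the proofs: `Λ = log H + d`, `S = Sz H d`, `f_g = lin W F g`,
`W = primorial w`, `φ` = totient.
-/

set_option autoImplicit false

namespace Pool.Agent.Helper93.PL

open Finset
open Pool.Agent.Helper61.PV

/-- `∏_{i < j} (m_j - m_i)` -/
def qd {k : ℕ} (m : Fin k → ℕ) (j : Fin k) : ℕ := ∏ i ∈ univ.filter (fun i => i < j), (m j - m i)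

/-- `∏_{i ∈ T, i < m} (m - i)` -/
def qs (T : Finset ℕ) (m : ℕ) : ℕ := ∏ i ∈ T.filter (fun i => i < m), (m - i)

/-- the main term of the moment of `T` (relative to the modulus `W`) -/
noncomputable def sg (W : ℕ) (T : Finset ℕ) : ℝ :=
  ∏ m ∈ T, (((W * qs T m : ℕ) : ℝ) / Nat.totient (W * qs T m))

/-- the primes up to `w` -/
def Pw (w : ℕ) : Finset ℕ := (Icc 1 w).filter Nat.Prime

/-- the number of zeros of `F` modulo `p` -/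
def Nz {d : ℕ} (F : Fin (d + 1) → ℤ) (p : ℕ) : ℕ := #((range p).filter (fun r : ℕ => (p : ℤ) ∣ ev F r))

/-- the number of `r` modulo `W` with `F(r)` coprime to `W` -/
def Rc {d : ℕ} (W : ℕ) (F : Fin (d + 1) → ℤ) : ℕ :=
  #((range W).filter (fun r : ℕ => Nat.Coprime (ev F r).natAbs W))

/-- the allowed `m`: `y < m ≤ z`, `F(m)` coprime to `W` -/
noncomputable def al {d : ℕ} (W : ℕ) (F : Fin (d + 1) → ℤ) (y z : ℝ) : Finset ℕ :=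
  (range (⌊z⌋₊ + 1)).filter (fun m : ℕ => y < m ∧ Nat.Coprime (ev F m).natAbs W)

/-- the number of `m`, `y < m ≤ z`, with `c(m)` prime -/
noncomputable def nP {d : ℕ} (c : Fin (d + 1) → ℤ) (y z : ℝ) : ℕ :=
  #((range (⌊z⌋₊ + 1)).filter (fun m : ℕ => y < m ∧ (ev c m).toNat.Prime))

/-- `P(Poisson(y) = j)` -/
noncomputable def pois (j : ℕ) (y : ℝ) : ℝ := Real.exp (-y) * y ^ j / j.factorial

/-- `P(N_p = n)`, `N_p` binomial with parameters `p, 1/p` -/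
noncomputable def bw (p n : ℕ) : ℝ := p.choose n * (1 / (p : ℝ)) ^ n * (1 - 1 / (p : ℝ)) ^ (p - n)

/-- the Euler product `∏_{p ≤ w} (1 - n_p/p)/(1 - 1/p)` -/
noncomputable def eu {w : ℕ} (n : Pw w → ℕ) : ℝ :=
  ∏ p : Pw w, (1 - (n p : ℝ) / p.1) / (1 - 1 / (p.1 : ℝ))

/-- `P(N_p < p for all p ≤ w) = ∏_{p ≤ w} (1 - p^(-p))` -/
noncomputable def Pst (w : ℕ) : ℝ := ∏ p : Pw w, (1 - (1 / (p.1 : ℝ)) ^ p.1)

/-- the mixed Poisson law with the primes up to `w`: `E[pois j (x B)]`, `B = ∏ (1 - N_p/p)/(1 - 1/p)`, the `N_p` independent,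
binomial `(p, 1/p)`, conditioned on `N_p < p` -/
noncomputable def LawW (w j : ℕ) (x : ℝ) : ℝ :=
  ∑ n ∈ Fintype.piFinset (fun p : Pw w => range p.1),
    (∏ p : Pw w, bw p.1 (n p) / (1 - (1 / (p.1 : ℝ)) ^ p.1)) * pois j (x * eu n)

/-! ### k values at once -/

/-- KDG (`k` values at once). From DIG (`hDig : StDig`). About 150 lines.

Proof. Induction on `k`, all `d`. `k = 0`: `b = 0`. Step (`k + 1` points `m_0 < m_1 < ..`): `U(u_0)` = digits of `u_0` in base `m_0` (DIG for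
`d`, `m_0`, `B`; choose them for every `u_0 < m_0^d B`), coefficients in `[0, B)` as `m_0 ≤ M ≤ B`. If `k = 0` take `b u = U(u_0)`. Otherwise `d ≥ k ≥ 1`,
`d = e + 1`, and `b', t'` from the induction hypothesis for the points `m_1, .., m_k`, degree `e` (`Fin.tail`). Put
`b u = U(u_0) + (X - m_0) b'(tail u)`: `b_i = U_i + b'_{i-1} - m_0 b'_i` (`Fin.cons 0 b'`, `Fin.snoc b' 0`, as in
`Helper29/PV/M_Pdg.lean`). Then `b(m_0) = u_0`, `b(m_j) = U(u_0)(m_j) + (m_j - m_0) (t'_{j-1} + qd m' (j-1) u_j)`, `qd m j = (m_j - m_0) qd m' (j-1)`,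
`m_j^(d-j) = m_j^(e-(j-1))`. `t_0 = 0`, `t_j u = U(u_0)(m_j) + (m_j - m_0) t'_{j-1}(tail u)` (for `u_0` out of range put anything, e.g. use a chosen `U`).
Sizes: `|b_i| ≤ B + (M+1)(M+2)^k B ≤ (M+2)^(k+1) B`. -/
def StKdg : Prop := ∀ (k d B M : ℕ) (m : Fin k → ℕ), k ≤ d + 1 → StrictMono m →
  (∀ j, 1 ≤ m j ∧ m j ≤ M) → M ≤ B →
  ∃ (t : Fin k → (Fin k → ℕ) → ℤ) (b : (Fin k → ℕ) → Fin (d + 1) → ℤ),
    (∀ j u u', (∀ i, i < j → u i = u' i) → t j u = t j u') ∧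
    ∀ u : Fin k → ℕ, (∀ j : Fin k, u j < m j ^ (d - (j : ℕ)) * B) →
      (∀ i, |b u i| ≤ (((M + 2) ^ k * B : ℕ) : ℤ)) ∧
      ∀ j, ev (b u) (m j) = t j u + (qd m j : ℤ) * u j

/-- ITE (iterated sums). No hypotheses. About 100 lines.

Proof. Induction on `k`, removing the last coordinate (`Fin.snoc`, `Fin.prod_univ_castSucc`; `T (last) ` is the only factor which
depends on `u (last)`): `∑_u ∏_j T_j = ∑_{u'} ∏_{j < last} T_j(u') ∑_v T_last(u', v)`; for the lower bound use that the product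
over `j < last` is `0` unless all `T_i ≠ 0`. (Restrict `N, T` to `Fin k`; `T' j u' = T j.castSucc (Fin.snoc u' 0)`.) -/
def StIte : Prop := ∀ (k : ℕ) (N : Fin k → ℕ) (T : Fin k → (Fin k → ℕ) → ℝ) (C c : Fin k → ℝ),
  (∀ j, 1 ≤ N j) → (∀ j u, 0 ≤ T j u) → (∀ j u u', (∀ i, i ≤ j → u i = u' i) → T j u = T j u') →
  (∀ j, 0 ≤ C j) → (∀ j, 0 ≤ c j) →
  ((∀ j u, (∀ i, u i < N i) → ∑ v ∈ range (N j), T j (Function.update u j v) ≤ C j) →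
    ∑ u ∈ Fintype.piFinset (fun j => range (N j)), ∏ j, T j u ≤ ∏ j, C j) ∧
  ((∀ j u, (∀ i, u i < N i) → (∀ i, i < j → T i u ≠ 0) →
      c j ≤ ∑ v ∈ range (N j), T j (Function.update u j v)) →
    ∏ j, c j ≤ ∑ u ∈ Fintype.piFinset (fun j => range (N j)), ∏ j, T j u)

/-- the number of values of the `j`-th digit variable -/
def Nj {k : ℕ} (d B : ℕ) (m : Fin k → ℕ) (j : Fin k) : ℕ := m j ^ (d - (j : ℕ)) * B

/-- the main term at `m_j`: `W q_j N_j/φ(W q_j)` -/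
noncomputable def Mt {k : ℕ} (W d B : ℕ) (m : Fin k → ℕ) (j : Fin k) : ℝ :=
  ((W * qd m j : ℕ) : ℝ) * Nj d B m j / Nat.totient (W * qd m j)

/-- hypotheses of KMU, KML (`R = (M+2)^k B`) -/
def KHyp (k d M B W : ℕ) (m x : Fin k → ℕ) (E : Fin k → ℝ) (F A : Fin (d + 1) → ℤ)
    (h : Fin (d + 1) → ℕ) : Prop :=
  k ≤ d + 1 ∧ StrictMono m ∧ (∀ j, 1 ≤ m j ∧ m j ≤ M) ∧ M ≤ B ∧ 1 ≤ B ∧ 1 ≤ W ∧ (∀ j, 0 ≤ E j) ∧
  (∀ j : Fin k, APB (W * qd m j) (Nj d B m j) (x j) (E j)) ∧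
  (∀ a : Fin (d + 1) → ℤ,
    (∀ i, A i - (2 * ((M + 2) ^ k * B) : ℕ) ≤ a i ∧ a i < A i + h i + (2 * ((M + 2) ^ k * B) : ℕ)) →
    ∀ j : Fin k, (M : ℤ) < ev (lin W F a) (m j) ∧
      ev (lin W F a) (m j) + ((W * qd m j * Nj d B m j : ℕ) : ℤ) ≤ x j + 1) ∧
  (∀ j, Nat.Coprime (ev F (m j)).natAbs W)

/-- KMU (`k`-th moment, upper bound). From TRA, KDG, ITE (`hTra : StTra`, `hKdg : StKdg`, `hIte : StIte`).
About 150 lines. Model: `Helper82/PV/M_Smo.lean` (`k = 2`) and `Helper98/PV/M_Fmo.lean`.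

Proof. `R = (M+2)^k B`, `N_j = Nj d B m j ≥ 1`, `q_j = qd m j ≥ 1`, `b, t` from KDG. For all `u` with `u_j < N_j` by TRA
`∑_g ∏_j thz(f_g(m_j)) ≤ ∑_{a ∈ Bx⁺} ∏_j T_j(a,u)`, where `T_j(a,u) = thz(ev (lin W F a) (m_j) + W (t_j u + q_j u_j))` for ALL `u : Fin k → ℕ` (it depends
on the coordinates `≤ j` only, as ITE wants) and `T_j(a,u) = thz(ev (lin W F (a + b u)) (m_j))` for `u` in range. Let `u` be in range, `v < N_j`: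
`T_j(a, u[j := v]) = th(y_j + W q_j v)`, `y_j = ev (lin W F a) (m_j) + W t_j(u) = ev (lin W F (a + b(u[j := 0]))) (m_j)` (`≥ 1` and the size hypothesis of `APB`: apply the
hypothesis to `a + b(u[j := 0])`, which is in the box enlarged by `2R`). Sum over all `u` (`∏ N_j` of them), ITE (first part) for
each `a` with `C_j = Mt W d B m j + E_j` from `APB` (drop the coprimality condition). The number of `a` is `∏ (h_i + 2R)` (`Fintype.card_piFinset`,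
`Int.card_Ico`). -/
def StKmu : Prop := ∀ (k d M B W : ℕ) (m x : Fin k → ℕ) (E : Fin k → ℝ) (F A : Fin (d + 1) → ℤ)
  (h : Fin (d + 1) → ℕ), KHyp k d M B W m x E F A h →
  (∏ j : Fin k, (Nj d B m j : ℝ)) * ∑ g ∈ Bx A h, ∏ j, thz (ev (lin W F g) (m j)) ≤
    (∏ i, ((h i + 2 * ((M + 2) ^ k * B) : ℕ) : ℝ)) * ∏ j : Fin k, (Mt W d B m j + E j)

/-- KML (`k`-th moment, lower bound). From TRA, KDG, ITE (`hTra : StTra`, `hKdg : StKdg`, `hIte : StIte`).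
About 200 lines. Model: as KMU.

Proof. As KMU with the second part of TRA: `∑_{a ∈ Bx⁻} ∏_j T_j(a,u) ≤ ∑_g ..` for every `u`; sum over `u`, ITE (second part) for each `a` with
`c_j = Mt W d B m j - E_j ≥ 0`: if `T_i(a,u) ≠ 0` for the `i < j` then
`v_i = ev (lin W F (a + b u)) (m_i)` is a prime, `> M` (hypothesis), so coprime to `m_j - m_i ∈ [1, M]`; with `u' = u[j := 0]` (same `v_i` for `i < j`:
`ev (b u) (m_i) = t_i u + qd m i u_i` depends on the coordinates `≤ i` only)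
`y_j ≡ v_i mod (m_j - m_i)` (`f(m_j) ≡ f(m_i)`), and `y_j ≡ ev F (m_j) mod W`; so `y_j` is coprime to `W q_j` and `APB` gives the sum over the `j`-th
coordinate `≥ Mt - E_j`. -/
def StKml : Prop := ∀ (k d M B W : ℕ) (m x : Fin k → ℕ) (E : Fin k → ℝ) (F A : Fin (d + 1) → ℤ)
  (h : Fin (d + 1) → ℕ), KHyp k d M B W m x E F A h →
  (∀ i, 2 * ((M + 2) ^ k * B) ≤ h i) → (∀ j : Fin k, E j ≤ Mt W d B m j) →
  (∏ i, ((h i - 2 * ((M + 2) ^ k * B) : ℕ) : ℝ)) * ∏ j : Fin k, (Mt W d B m j - E j) ≤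
    (∏ j : Fin k, (Nj d B m j : ℝ)) * ∑ g ∈ Bx A h, ∏ j, thz (ev (lin W F g) (m j))

/-- SZR (sizes). From SIZ (`hSiz : StSiz`). About 80 lines. Model: `Helper2/PV/M_Sz2.lean`.

Proof. `4 R (d+1) ≤ 2 δ κ H/W` and `W ≥ 1`, `δ ≤ 1/2` give `2 R W ≤ κ H/2 ≤ H/2`. By `Cond` the coefficients of `lin W F a` are in `[-2H, 2H]`,
the last one is `≥ κ H - 2 R W ≥ (κ/2) H`. SIZ with `κ/2` (`1 + 4/(κ/2) = 1 + 8/κ`). -/
def StSzr : Prop := ∀ (W H d m R : ℕ) (κ δ : ℝ) (F A : Fin (d + 1) → ℤ) (h : Fin (d + 1) → ℕ),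
  1 ≤ W → 1 ≤ H → 0 < κ → κ < 1 → 0 < δ → δ ≤ 1 / 2 → Cond W H κ F A h → 1 + 8 / κ ≤ m →
  4 * (R : ℝ) * (d + 1) ≤ 2 * δ * (κ * H / W) →
  ∀ a : Fin (d + 1) → ℤ, (∀ i, A i - (2 * R : ℕ) ≤ a i ∧ a i < A i + h i + (2 * R : ℕ)) →
    κ * H * (m : ℝ) ^ d / 4 ≤ ev (lin W F a) m ∧ ((ev (lin W F a) m : ℤ) : ℝ) ≤ 4 * H * (m : ℝ) ^ d

/-- NUK (numerical lemma for MOK). No hypotheses. About 150 lines. Model: `Helper2/PV/M_Num.lean`.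

Proof. `H` large in terms of `k, W, C, κ, δ`. `S ≤ Λ²`, `M = max 1 ⌊C S⌋₊ ≤ Λ³`, `B = ⌊H/Λ^(10(k+1))⌋₊`; `H/Λ^(10(k+1)) ≥ Λ^(30(k+1)) ≥ 2`, so
`B ≥ H/(2 Λ^(10(k+1))) ≥ Λ³ ≥ M`. `(M+2)^k ≤ (2Λ³)^k ≤ Λ^(4k)`: `4 (M+2)^k B (d+1) ≤ 4 Λ^(4k+1) H/Λ^(10k+10) ≤ 2 δ κ H/W`.
`B δ Λ^(14(k+1)) ≥ (δ/2) H Λ^(4k+4) ≥ 32 H Λ^(3k) ≥ 32 H M^k`. `W M^k ≤ W Λ^(3k) ≤ Λ^(4(k+1))`, `W B ≤ H`, `M ≤ Λ³ < κ H/4`. -/
def StNuk : Prop := ∀ (k W : ℕ) (C κ δ : ℝ), 1 ≤ W → 0 < C → 0 < κ → κ < 1 → 0 < δ → δ < 1 →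
  ∃ H₀ : ℕ, ∀ H : ℕ, H₀ ≤ H → ∀ d : ℕ, 1 ≤ d → (Real.log H + d) ^ (40 * (k + 1)) ≤ H →
  ∃ B M : ℕ, 1 ≤ M ∧ C * Sz H d < M + 1 ∧ M ≤ B ∧
    4 * (((M + 2) ^ k * B : ℕ) : ℝ) * (d + 1) ≤ 2 * δ * (κ * H / W) ∧
    32 * (H : ℝ) * (M : ℝ) ^ k ≤ B * (δ * (Real.log H + d) ^ (14 * (k + 1))) ∧
    (W : ℝ) * (M : ℝ) ^ k ≤ (Real.log H + d) ^ (4 * (k + 1)) ∧
    (W : ℝ) * B ≤ H ∧ (M : ℝ) < κ * H / 4

/-- MOK (`k`-th moment). From KMU, KML, CAR, SZR, APP, NUK (`hKmu hKml hCar hSzr hApp hNuk`, in this order). About 250 lines.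
Model: `Helper93/PV/M_Mom.lean`.

Proof. `δ₁ = δ/(8(k+1))`, `B, M` from NUK (with `δ₁`), `R = (M+2)^k B`, `x_j = 16 H m_j^d`, `log x_j ≥ Λ` (`m_j ≥ 9`; see ERR in `Helper61/PV/St.lean`), APP with
exponents `A = 14(k+1)`, `B = 4(k+1)`: `W qd m j ≤ W m_j^j ≤ W M^k ≤ Λ^(4(k+1))`, `E_j = 2 x_j/log(x_j)^A ≤ 32 H m_j^d/Λ^A ≤ δ₁ m_j^(d-j) B` (as
`m_j^j ≤ M^k`, `32 H M^k ≤ B δ₁ Λ^A`) `≤ δ₁ W q_j N_j/φ(W q_j)`. `KHyp`: SZR (`R`), `M < κH/4 ≤ κ H m_j^d/4`,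
`W q_j N_j ≤ W m_j^j m_j^(d-j) B ≤ H m_j^d` (`j ≤ d`). CAR with `h₀ = κH/W`: `∏ (h+2R) ≤ e^(δ₁) ∏ h`, `∏ (h-2R) ≥ (1-δ₁) ∏ h`. So the quotient of the sum
and of the main term is between `(1-δ₁)^(k+1)` and `e^(δ₁)(1+δ₁)^k`. -/
def StMok : Prop := ∀ (k W : ℕ) (C κ δ : ℝ), 1 ≤ W → 0 < C → 0 < κ → κ < 1 → 0 < δ → δ < 1 →
  ∃ H₀ : ℕ, ∀ H : ℕ, H₀ ≤ H → ∀ d : ℕ, 1 ≤ d → k ≤ d + 1 →
  (Real.log H + d) ^ (40 * (k + 1)) ≤ H →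
  ∀ (F A : Fin (d + 1) → ℤ) (h : Fin (d + 1) → ℕ), Cond W H κ F A h →
  ∀ m : Fin k → ℕ, StrictMono m → (∀ j, 1 + 8 / κ ≤ m j ∧ (m j : ℝ) ≤ C * Sz H d ∧
    Nat.Coprime (ev F (m j)).natAbs W) →
  |∑ g ∈ Bx A h, ∏ j, thz (ev (lin W F g) (m j)) -
    (∏ j : Fin k, (((W * qd m j : ℕ) : ℝ) / Nat.totient (W * qd m j))) * ∏ i, (h i : ℝ)| ≤
    δ * ((∏ j : Fin k, (((W * qd m j : ℕ) : ℝ) / Nat.totient (W * qd m j))) * ∏ i, (h i : ℝ))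

/-- MOT (the same for sets). From MOK (`hMok : StMok`). About 60 lines.

Proof. `m = T.orderEmbOfFin hT`; `∏ m ∈ T` = `∏ j : Fin k` (`Finset.prod_coe_sort`/`Finset.prod_nbij` with `orderEmbOfFin`), `qs T (m j) = qd m j`. -/
def StMot : Prop := ∀ (k W : ℕ) (C κ δ : ℝ), 1 ≤ W → 0 < C → 0 < κ → κ < 1 → 0 < δ → δ < 1 →
  ∃ H₀ : ℕ, ∀ H : ℕ, H₀ ≤ H → ∀ d : ℕ, 1 ≤ d → k ≤ d + 1 →
  (Real.log H + d) ^ (40 * (k + 1)) ≤ H →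
  ∀ (F A : Fin (d + 1) → ℤ) (h : Fin (d + 1) → ℕ), Cond W H κ F A h →
  ∀ T : Finset ℕ, #T = k → (∀ m ∈ T, 1 + 8 / κ ≤ m ∧ (m : ℝ) ≤ C * Sz H d ∧
    Nat.Coprime (ev F m).natAbs W) →
  |∑ g ∈ Bx A h, ∏ m ∈ T, thz (ev (lin W F g) m) - sg W T * ∏ i, (h i : ℝ)| ≤
    δ * (sg W T * ∏ i, (h i : ℝ))

/-! ### the singular series -/

/-- MER. No hypotheses. About 120 lines.

Proof. `W/φ(W) = ∏_{p ≤ w} (1 + 1/(p-1)) ≤ exp(∑_{p ≤ w} 1/(p-1)) ≤ exp(2 ∑_{p ≤ w} 1/p)`, and `∑_{p ≤ w} 1/p ≤ C loglog w`: dyadic,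
`∏_{2^i < p ≤ 2^(i+1)} p ≤ 4^(2^(i+1))` (`primorial_le_4_pow`), so at most `2^(i+2)/i` primes in `(2^i, 2^(i+1)]`, their reciprocals
sum to at most `4/i`. So `W/φ(W) ≤ C' (log w)^8`. (Or use any Mertens or Chebyshev theorem already on main.) -/
def StMer : Prop := ∀ (k : ℕ) (ε : ℝ), 0 < ε → ∃ w₀ : ℕ, ∀ w : ℕ, w₀ ≤ w →
  ((primorial w : ℝ) / Nat.totient (primorial w)) ^ k ≤ ε * w

/-- `∏_{p | h, p > w} (1 + 1/(p-1))` -/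
noncomputable def rho (w h : ℕ) : ℝ := ∏ p ∈ h.primeFactors.filter (fun p => w < p), (1 + 1 / ((p : ℝ) - 1))

/-- RH1 (moments of `rho`). No hypotheses. About 130 lines. Model: `Helper79/PV/M_Rho.lean`.

Proof. `rho(h)^K = ∏_{p | h, p > w} (1 + z_p)`, `z_p = (1 + 1/(p-1))^K - 1 ≤ 2^K/(p-1)` (`(1+t)^K ≤ 1 + (2^K - 1) t` for `t ∈ [0,1]`). Expanding as in RHO
`∑_{h ≤ M} rho(h)^K ≤ M ∏_{w < p ≤ M} (1 + z_p/p) ≤ M exp(2^K ∑_{n > w} 1/(n(n-1))) ≤ M exp(2^K/w) ≤ M (1 + 2 2^K/w)`. (`w = 0` is excluded.) -/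
def StRh1 : Prop := ∀ K w M : ℕ, 2 ^ K ≤ w →
  ∑ h ∈ Icc 1 M, (rho w h ^ K - 1) ≤ 2 ^ (K + 1) / (w : ℝ) * M

/-- RH2 (`sg` and `rho`). No hypotheses. About 100 lines.

Proof. `W = primorial w`. `n/φ(n) = ∏_{p | n} (1 + 1/(p-1))`. So for `q ≥ 1`: `W q/φ(W q) = (W/φ(W)) ∏_{p | q, p > w} (1 + 1/(p-1)) = (W/φ(W)) rho w q`,
and `1 ≤ rho w (q q') ≤ rho w q rho w q'`, so `rho w (qs T m) ≤ ∏_{i ∈ T, i < m} rho w (m - i)`. -/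
def StRh2 : Prop := ∀ (w : ℕ) (T : Finset ℕ),
  ((primorial w : ℝ) / Nat.totient (primorial w)) ^ #T ≤ sg (primorial w) T ∧
  sg (primorial w) T ≤ ((primorial w : ℝ) / Nat.totient (primorial w)) ^ #T *
    ∏ m ∈ T, ∏ i ∈ T.filter (fun i => i < m), rho w (m - i)

/-- RH3 (sum over sets of a product over pairs). No hypotheses. About 120 lines.

Proof. For `|T| = k` the number of pairs is `≤ k²`; if `μ` is the largest `r(m-i)` (of a pair of `T`; no pair: the product is `1`) then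
`∏ r(m-i) - 1 ≤ μ^(k k) - 1 ≤ ∑_{pairs} (r(m-i)^(k k) - 1)` (`r ≥ 1`). Every pair `i < m` in `[1,M]` is in at most `M^(k-2)` sets `T`, so
`∑_T ≤ M^(k-2) ∑_{i < m ≤ M} (r(m-i)^(k k) - 1) ≤ M^(k-1) ∑_{h ≤ M} (r(h)^(k k) - 1)`. (`k ≤ 1`: no pairs, the left side is `0`.) -/
def StRh3 : Prop := ∀ (k M : ℕ) (r : ℕ → ℝ), (∀ h, 1 ≤ r h) →
  ∑ T ∈ (Icc 1 M).powersetCard k, ((∏ m ∈ T, ∏ i ∈ T.filter (fun i => i < m), r (m - i)) - 1) ≤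
    (M : ℝ) ^ (k - 1) * ∑ h ∈ Icc 1 M, (r h ^ (k * k) - 1)

/-- RHK (average of the main terms). From MER, RH1, RH2, RH3 (`hMer hRh1 hRh2 hRh3`). About 60 lines.

Proof. First part RH2. `sg - (W/φ)^k ≤ (W/φ)^k (∏ rho - 1)`; RH3 (`r = rho w ≥ 1`), RH1 (`K = k k`, `w ≥ 2^K`): total `≤ (W/φ)^k M^(k-1) 2^(K+1)/w M` (`k ≥ 1`), and MER
with `ε/2^(K+1)`. `k = 0`: the sum is `0`. -/
def StRhk : Prop := ∀ (k : ℕ) (ε : ℝ), 0 < ε → ∃ w₀ : ℕ, ∀ w : ℕ, w₀ ≤ w →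
  (∀ T : Finset ℕ, #T = k → ((primorial w : ℝ) / Nat.totient (primorial w)) ^ k ≤ sg (primorial w) T) ∧
  ∀ M : ℕ, ∑ T ∈ (Icc 1 M).powersetCard k,
    (sg (primorial w) T - ((primorial w : ℝ) / Nat.totient (primorial w)) ^ k) ≤ ε * (M : ℝ) ^ k

/-! ### one class modulo `W` -/

/-- NUS (logarithms of the values). No hypotheses. About 120 lines.

Proof. `Λ = d + log H → ∞`, `S ≥ Λ` and `S ≤ Λ (1 + log Λ)` for `H` large. Lower: `log m ≥ log μ + log S ≥ log Λ - log(1/μ)`, so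
`log(κHm^d/4) ≥ log H + d log Λ - d log(1/μ) - log(4/κ) ≥ S - δ S` as `d ≤ S/log Λ`. Upper: `log m ≤ log x + log Λ + log(1 + log Λ)`,
`log(4Hm^d) ≤ S + d (|log x| + log(1 + log Λ)) + log 4 ≤ (1+δ) S`. -/
def StNus : Prop := ∀ (μ x κ δ : ℝ), 0 < μ → μ ≤ x → 0 < κ → κ < 1 → 0 < δ → δ < 1 →
  ∃ H₀ : ℕ, ∀ H : ℕ, H₀ ≤ H → ∀ d : ℕ, 1 ≤ d → ∀ m : ℕ, μ * Sz H d ≤ m → (m : ℝ) ≤ x * Sz H d →
    1 + 8 / κ ≤ m ∧ (1 - δ) * Sz H d ≤ Real.log (κ * H * (m : ℝ) ^ d / 4) ∧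
    Real.log (4 * H * (m : ℝ) ^ d) ≤ (1 + δ) * Sz H d

/-- ALW (number of allowed `m`). No hypotheses. About 80 lines.

Proof. `ev F (m + W) ≡ ev F m mod W` (and `Nat.Coprime (·).natAbs W` depends only on the class modulo `W`), so any `W` consecutive `m`
contain `Rc W F` allowed ones; the interval `(y, z]` contains `⌊z⌋ - ⌊y⌋` integers: at least `(z-y)/W - 2` and at most `(z-y)/W + 2` complete
periods, `Rc ≤ W`. -/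
def StAlw : Prop := ∀ (d W : ℕ) (F : Fin (d + 1) → ℤ) (y z : ℝ), 1 ≤ W → 0 ≤ y → y ≤ z →
  |(#(al W F y z) : ℝ) - (z - y) * Rc W F / W| ≤ 4 * W

/-- CHO (binomial coefficients). No hypotheses. About 60 lines.

Proof. `a^k/k! - C(a,k)` is between `0` and `k² a^(k-1)/k!` (or `C(a,k) = a(a-1)..(a-k+1)/k!`, each factor divided by `S` is within
`(c + k)/S` of `y`); `|y| ≤ Y`. -/
def StCho : Prop := ∀ (k : ℕ) (Y c ε : ℝ), 0 ≤ Y → 0 ≤ c → 0 < ε → ∃ S₀ : ℝ, 0 < S₀ ∧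
  ∀ (S y : ℝ) (a : ℕ), S₀ ≤ S → 0 ≤ y → y ≤ Y → |(a : ℝ) - y * S| ≤ c →
    |(a.choose k : ℝ) / S ^ k - y ^ k / k.factorial| ≤ ε

/-- CL1 (counting sets of prime points by `thz`). From NUS, SZR (`hNus hSzr`). About 150 lines.

Proof. `𝓐 = al W F y z`, `y = μS`, `z = xS`. SZR with `R = 0`: for `g ∈ Bx A h`, `y < m ≤ z` (`m ≥ 1 + 8/κ` by NUS): `κ H m^d/4 ≤ f_g(m) ≤ 4 H m^d`, so by NUS: if
`f_g(m)` is prime then `thz(f_g(m)) = log f_g(m) ∈ [(1-δ)S, (1+δ)S]`, and this prime is `≥ κ H/4 > W` (`H` large), so it is coprime to `W`, and so is `ev F m`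
(congruent modulo `W`): `m ∈ 𝓐`. So `nP (f_g) y z = #P`, `P = {m ∈ 𝓐 : f_g(m) prime}`; the product `∏_{m ∈ T} thz` is `0` unless `T ⊆ P`, and in `[((1-δ)S)^k, ((1+δ)S)^k]` for the
`C(#P, k)` sets `T ⊆ P` (`Finset.card_powersetCard`). -/
def StCl1 : Prop := ∀ (k W : ℕ) (μ x κ δ : ℝ), 1 ≤ W → 0 < μ → μ < x → 0 < κ → κ ≤ 1 / 4 → 0 < δ → δ < 1 →
  ∃ H₀ : ℕ, ∀ H : ℕ, H₀ ≤ H → ∀ d : ℕ, 1 ≤ d →
  ∀ (F A : Fin (d + 1) → ℤ) (h : Fin (d + 1) → ℕ), Cond W H κ F A h → ∀ g ∈ Bx A h,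
  ((1 - δ) * Sz H d) ^ k * ((nP (lin W F g) (μ * Sz H d) (x * Sz H d)).choose k : ℝ) ≤
    ∑ T ∈ (al W F (μ * Sz H d) (x * Sz H d)).powersetCard k, ∏ m ∈ T, thz (ev (lin W F g) m) ∧
  ∑ T ∈ (al W F (μ * Sz H d) (x * Sz H d)).powersetCard k, ∏ m ∈ T, thz (ev (lin W F g) m) ≤
    ((1 + δ) * Sz H d) ^ k * ((nP (lin W F g) (μ * Sz H d) (x * Sz H d)).choose k : ℝ)

/-- CL2 (the sum of the main terms). From RHK, ALW, CHO (`hRhk hAlw hCho`). About 120 lines.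

Proof. `W = primorial w`, `𝓐 = al W F (μS) (xS) ⊆ [1, ⌊xS⌋]`, `a = #𝓐`. RHK (`M = ⌊xS⌋`, `ε₁ = ε/(2 x^k)`):
`(W/φ)^k C(a,k) ≤ ∑_T sg ≤ (W/φ)^k C(a,k) + ε₁ (xS)^k` (`card_powersetCard`; the terms of RHK are `≥ 0`). ALW, CHO (`y' = (x-μ) Rc/W ≤ x = Y` as `Rc ≤ W`, `c = 4W`,
`ε₂ = (ε/2)(φ/W)^k`): `|C(a,k)/S^k - ((x-μ) Rc/W)^k/k!| ≤ ε₂`. -/
def StCl2 : Prop := ∀ (k : ℕ) (ε x : ℝ), 0 < ε → 0 < x → ∃ w₀ : ℕ, ∀ w : ℕ, w₀ ≤ w →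
  ∀ μ : ℝ, 0 < μ → μ < x → ∃ S₀ : ℝ, 0 < S₀ ∧ ∀ S : ℝ, S₀ ≤ S → ∀ (d : ℕ) (F : Fin (d + 1) → ℤ),
  |(∑ T ∈ (al (primorial w) F (μ * S) (x * S)).powersetCard k, sg (primorial w) T) / S ^ k -
    ((x - μ) * (Rc (primorial w) F / Nat.totient (primorial w))) ^ k / k.factorial| ≤ ε

/-- CLM (factorial moments in one class). From CL1, CL2, MOT, CAR (`hCl1 hCl2 hMot hCar`). About 150 lines.

Proof. `W = primorial w`, `S = Sz H d ≥ log H → ∞`, `b = Rc/φ ≤ W`. CL2 with `ε/4`; put `s = ∑_T sg/S^k`, `s ≤ (x W)^k/k! + ε`, a bound `s ≤ Q` in terms of `w`.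
CL1 summed over `g`, and MOT (`C = x`; for the `T ⊆ 𝓐`: `1 + 8/κ ≤ m` as `m > μ S`): `((1-δ)S)^k ∑ C(nP,k) ≤ (1+δ) s S^k ∏ h`,
`((1+δ)S)^k ∑ C(nP,k) ≥ (1-δ) s S^k ∏ h`. So `∑ C(nP,k)/∏ h ∈ [(1-δ)/(1+δ)^k s, (1+δ)/(1-δ)^k s]`, within `ε/4` of `s` for `δ` small in terms of `Q, k, ε`
(`((1+δ)/(1-δ)^k → 1`: continuity at `δ = 0`). -/
def StClm : Prop := ∀ (k : ℕ) (ε x : ℝ), 0 < ε → 0 < x → ∃ w₀ : ℕ, ∀ w : ℕ, w₀ ≤ w →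
  ∀ μ κ : ℝ, 0 < μ → μ < x → 0 < κ → κ ≤ 1 / 4 → ∃ H₀ : ℕ, ∀ H : ℕ, H₀ ≤ H →
  ∀ d : ℕ, 1 ≤ d → k ≤ d + 1 → (Real.log H + d) ^ (40 * (k + 1)) ≤ H →
  ∀ (F A : Fin (d + 1) → ℤ) (h : Fin (d + 1) → ℕ), Cond (primorial w) H κ F A h →
  |∑ g ∈ Bx A h, ((nP (lin (primorial w) F g) (μ * Sz H d) (x * Sz H d)).choose k : ℝ) -
    ((x - μ) * (Rc (primorial w) F / Nat.totient (primorial w))) ^ k / k.factorial *
      ∏ i, (h i : ℝ)| ≤ ε * ∏ i, (h i : ℝ)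

/-- BOF (Bonferroni). No hypotheses. About 60 lines.

Proof. `C(j+i,j) C(N,j+i) = C(N,j) C(N-j,i)` (`Nat.choose_mul`), `∑_{i ≤ r} (-1)^i C(n,i) = (-1)^r C(n-1,r)` for `n ≥ 1`
(`Int.alternating_sum_range_choose_eq_choose` or induction), `C(n-1,r) ≤ C(n,r+1)`; `N < j` and `N = j` are trivial. -/
def StBof : Prop := ∀ j r N : ℕ,
  |(if N = j then (1 : ℝ) else 0) -
    ∑ i ∈ range (r + 1), (-1 : ℝ) ^ i * (j + i).choose j * N.choose (j + i)| ≤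
    ((j + r + 1).choose j : ℝ) * N.choose (j + r + 1)

/-- SER (the same for the Poisson law). No hypotheses. About 80 lines.

Proof. `C(j+i,j)/(j+i)! = 1/(j! i!)`; `|e^(-y) - ∑_{i ≤ r} (-y)^i/i!| ≤ y^(r+1)/(r+1)!` for `y ≥ 0` (Taylor with Lagrange remainder, or
induction on `r` by integration/monotonicity). Second part: the derivative of `pois j` has absolute value `≤ 1` on `[0, ∞)`
(it is `pois (j-1) - pois j`, both in `[0,1]`). -/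
def StSer : Prop := (∀ (j r : ℕ) (y : ℝ), 0 ≤ y →
  |pois j y - ∑ i ∈ range (r + 1), (-1 : ℝ) ^ i * (j + i).choose j * (y ^ (j + i) / (j + i).factorial)| ≤
    ((j + r + 1).choose j : ℝ) * (y ^ (j + r + 1) / (j + r + 1).factorial)) ∧
  (∀ (j : ℕ) (y : ℝ), 0 ≤ y → 0 ≤ pois j y ∧ pois j y ≤ 1) ∧
  ∀ (j : ℕ) (y z : ℝ), 0 ≤ y → 0 ≤ z → |pois j y - pois j z| ≤ |y - z|

/-- LC1 (law in one class). From CLM, BOF, SER, CAR (`hClm hBof hSer hCar`). About 150 lines.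

Proof. `K = j + r + 1`. CLM for `k = j, .., K` with `ε' = ε/((r+2) ∑_{i ≤ r+1} C(j+i,j))`, `w₀`, `H₀` = maxima (the power of `Λ` for `K` is the largest).
Write `b = Rc/φ`, `y = (x-μ) b`. BOF summed over `g ∈ Bx A h`, then SER:
`|#{nP = j} - ∏h pois j y| ≤ 2 C(K,j) y^K/K! ∏ h + ε ∏ h`; `y ≤ x b` and `|pois j y - pois j (x b)| ≤ μ b`. -/
def StLc1 : Prop := ∀ (j r : ℕ) (ε x : ℝ), 0 < ε → 0 < x → ∃ w₀ : ℕ, ∀ w : ℕ, w₀ ≤ w →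
  ∀ μ κ : ℝ, 0 < μ → μ < x → 0 < κ → κ ≤ 1 / 4 → ∃ H₀ : ℕ, ∀ H : ℕ, H₀ ≤ H →
  ∀ d : ℕ, 1 ≤ d → j + r + 1 ≤ d + 1 → (Real.log H + d) ^ (40 * (j + r + 2)) ≤ H →
  ∀ (F A : Fin (d + 1) → ℤ) (h : Fin (d + 1) → ℕ), Cond (primorial w) H κ F A h →
  |(Nat.card {g : Fin (d + 1) → ℤ // g ∈ Bx A h ∧
      nP (lin (primorial w) F g) (μ * Sz H d) (x * Sz H d) = j} : ℝ) -
    pois j (x * (Rc (primorial w) F / Nat.totient (primorial w))) * ∏ i, (h i : ℝ)| ≤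
    (ε + μ * (Rc (primorial w) F / Nat.totient (primorial w)) + 2 * ((j + r + 1).choose j : ℝ) *
      ((x * (Rc (primorial w) F / Nat.totient (primorial w))) ^ (j + r + 1) /
        (j + r + 1).factorial)) * ∏ i, (h i : ℝ)

/-! ### all classes modulo `W` -/

/-- EUL (`Rc/φ` is the Euler product). No hypotheses. About 120 lines.

Proof. `W = ∏_{p ≤ w} p` squarefree, Chinese remainder theorem: `Rc W F = ∏_{p ≤ w} (p - Nz F p)`: `r mod W ↔ (r mod p)_p`, and `F(r)` is coprime to `W` iff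
`p ∤ F(r mod p)` for all `p` (induction over the primes: for coprime `a, b`: `Rc (ab) F = Rc a F · Rc b F` via
`ZMod.chineseRemainder` or `Nat.chineseRemainder`; `Rc p F = p - Nz F p`). `φ(W) = ∏ (p-1)`. -/
def StEul : Prop := ∀ (w d : ℕ) (F : Fin (d + 1) → ℤ),
  ((Rc (primorial w) F : ℝ) / Nat.totient (primorial w)) = eu (w := w) (fun p => Nz F p.1) ∧
  ∀ p : ℕ, Nz F p ≤ p

/-- UN1 (the number of zeros modulo one prime). No hypotheses. About 130 lines.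

Proof. The map `F ↦ (r ↦ F(r) mod p)`, `(ZMod p)^(d+1) → (ZMod p → ZMod p)` is linear and onto (Lagrange interpolation, degree `≤ p - 1 ≤ d`; or: the Vandermonde matrix of the
points of `ZMod p` is invertible), so all fibres have the same number `p^(d+1-p)` of elements (cosets of the kernel); exactly
`C(p,n) (p-1)^(p-n)` maps `ZMod p → ZMod p` have `n` zeros. So the number of `F` with `Nz = n` is `p^(d+1-p) C(p,n) (p-1)^(p-n) = p^(d+1) bw p n`. (`[0,p) → ZMod p` is a bijection.) -/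
def StUn1 : Prop := ∀ (p d : ℕ), p.Prime → p ≤ d + 1 → ∀ G : ℕ → ℝ,
  ∑ F ∈ Fintype.piFinset (fun _ : Fin (d + 1) => Ico (0 : ℤ) p), G (Nz F p) =
    (p : ℝ) ^ (d + 1) * ∑ n ∈ range (p + 1), bw p n * G n

/-- CRP (Chinese remainder theorem for vectors). No hypotheses. About 80 lines.

Proof. `F ↦ (F mod a, F mod b)` is a bijection from `[0,ab)^(d+1)` to `[0,a)^(d+1) × [0,b)^(d+1)` (`Int.emod`, `Nat.chineseRemainder` or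
`ZMod.chineseRemainder` in every coordinate; or injective + same number of elements). -/
def StCrp : Prop := ∀ (d a b : ℕ), 1 ≤ a → 1 ≤ b → Nat.Coprime a b →
  ∀ G : (Fin (d + 1) → ℤ) → (Fin (d + 1) → ℤ) → ℝ,
  ∑ F ∈ Fintype.piFinset (fun _ : Fin (d + 1) => Ico (0 : ℤ) ((a * b : ℕ) : ℤ)),
      G (fun i => F i % a) (fun i => F i % b) =
    ∑ F₁ ∈ Fintype.piFinset (fun _ : Fin (d + 1) => Ico (0 : ℤ) a),
      ∑ F₂ ∈ Fintype.piFinset (fun _ : Fin (d + 1) => Ico (0 : ℤ) b), G F₁ F₂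

/-- UNI (the zeros modulo the `p ≤ w` are independent and binomial). From UN1, CRP (`hUn1 hCrp`). About 180 lines.

Proof. (1) For a finite set `s` of primes and functions `g_p`: `∑_{F ∈ [0,∏s)^(d+1)} ∏_{p ∈ s} g_p(Nz F p) = ∏_{p ∈ s} ∑_{F ∈ [0,p)^(d+1)} g_p(Nz F p)`: induction on `s` by CRP
(`a = q` the new prime, `b = ∏ s`; `Nz F p` depends only on `F mod p`, so only on `F mod b`, `F mod a`). (2) With UN1 this is `∏_p p^(d+1) ∑_n bw p n g_p(n)`. (3) General `G`: as `Nz F p ≤ p`,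
`G(Nz F) = ∑_{n ∈ ∏ [0,p]} G(n) ∏_p [Nz F p = n_p]`; exchange the sums and use (2) with `g_p = [· = n_p]`: `∏_p p^(d+1) bw p n_p`. `primorial w = ∏_{p ∈ Pw w} p`. -/
def StUni : Prop := ∀ (w d : ℕ), w ≤ d + 1 → ∀ G : (Pw w → ℕ) → ℝ,
  ∑ F ∈ Fintype.piFinset (fun _ : Fin (d + 1) => Ico (0 : ℤ) (primorial w)), G (fun p => Nz F p.1) =
    ((primorial w : ℕ) : ℝ) ^ (d + 1) *
      ∑ n ∈ Fintype.piFinset (fun p : Pw w => range (p.1 + 1)), (∏ p : Pw w, bw p.1 (n p)) * G n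

/-- BXC (the boxes of BOX have almost the same size). From CAR (`hCar : StCar`). About 200 lines.

Proof. `c = lin W F g`. For `i < d` the condition on `g_i` is `-H ≤ F_i + W g_i ≤ H`: `h_i` is within `1` of `(2H+1)/W`; for `i = d` it is
`max(1, κH) ≤ F_d + W g_d ≤ H`: `h_d` is within `2` of `(1-κ)H/W`. (The box is nonempty by `Cond`, so `A, h` are determined by the membership condition: fix all but
one coordinate.) `#Bxx = (2H+1)^d H`. So `W^(d+1) ∏h / #Bxx` is between `(1 - W/H)^d (1 - κ - 2W/H)` and `(1 + W/H)^d (1 + 2W/H)`, and `d W/H → 0`. -/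
def StBxc : Prop := ∀ (W : ℕ) (κ ε : ℝ), 1 ≤ W → 0 < κ → κ ≤ 1 / 4 → 0 < ε → 2 * κ ≤ ε → ∃ H₀ : ℕ,
  ∀ H : ℕ, H₀ ≤ H → ∀ d : ℕ, (Real.log H + d) ^ 40 ≤ H →
  ∀ (F A : Fin (d + 1) → ℤ) (h : Fin (d + 1) → ℕ), (∀ i, 0 ≤ F i ∧ F i < W) → Cond W H κ F A h →
  (∀ g : Fin (d + 1) → ℤ, g ∈ Bx A h ↔
    (lin W F g ∈ Bxx d H ∧ κ * H ≤ ((lin W F g (Fin.last d) : ℤ) : ℝ))) →
  |(∏ i, (h i : ℝ)) - #(Bxx d H) / ((W : ℝ) ^ (d + 1))| ≤ ε * (#(Bxx d H) / ((W : ℝ) ^ (d + 1)))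

/-- BM1 (moments of one factor). No hypotheses. About 150 lines.

Proof. `b(n) = (1 - n/p)/(1 - 1/p) = (p - n)/(p - 1)`. `∑_n bw p n = 1` (`add_pow` for `(1/p + (1 - 1/p))^p`), `∑_n bw p n n = 1`, `∑_n bw p n n (n-1) = p(p-1)/p²`
(`n C(p,n) = p C(p-1,n-1)`, or derivatives), so `∑_n bw p n b(n) = 1` and `∑_n bw p n (1-n)² = 1 - 1/p`. `b ≤ p/(p-1)` gives the last part. If `p ≥ k + 2`:
`b = 1 + ξ`, `ξ = (1-n)/(p-1) ≤ 1/(p-1)`, `k ξ ≤ 1`, `b^k ≤ e^(kξ) ≤ 1 + kξ + (kξ)²` (`0 ≤ b = 1 + ξ ≤ e^ξ`; `e^t ≤ 1 + t + t²` for `t ≤ 1`), `E ξ = 0`,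
`E ξ² = (1 - 1/p)/(p-1)² = 1/(p(p-1)) ≤ 2/p²`. -/
def StBm1 : Prop := ∀ p : ℕ, 2 ≤ p →
  ∑ n ∈ range (p + 1), bw p n = 1 ∧
  ∑ n ∈ range (p + 1), bw p n * ((1 - (n : ℝ) / p) / (1 - 1 / (p : ℝ))) = 1 ∧
  (∀ k : ℕ, k + 2 ≤ p →
    ∑ n ∈ range (p + 1), bw p n * ((1 - (n : ℝ) / p) / (1 - 1 / (p : ℝ))) ^ k ≤
      Real.exp (4 * k ^ 2 / (p : ℝ) ^ 2)) ∧
  ∀ k : ℕ, ∑ n ∈ range (p + 1), bw p n * ((1 - (n : ℝ) / p) / (1 - 1 / (p : ℝ))) ^ k ≤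
    ((p : ℝ) / (p - 1)) ^ k

/-- BM2 (products over primes). No hypotheses. About 80 lines.

Proof. `∏_{p ≤ K} p/(p-1) ≤ 2 ∏_{3 ≤ n ≤ K, n odd} n/(n-1)`, `(n/(n-1))² ≤ n/(n-2)`, telescoping over the odd `n`: `≤ 2 √K` (`K ≥ 1`). (Induction on `K` in steps of two: the bound
`2 √K` with `K` odd.) Second part: `1/n² ≤ 1/(n-1) - 1/n`. -/
def StBm2 : Prop := ∀ K : ℕ, 1 ≤ K →
  ∏ p ∈ (Icc 1 K).filter Nat.Prime, ((p : ℝ) / (p - 1)) ≤ 2 * Real.sqrt (K + 1) ∧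
  ∀ w : ℕ, ∑ p ∈ (Icc 1 w).filter (fun p => p.Prime ∧ K < p), 1 / (p : ℝ) ^ 2 ≤ 1 / (K : ℝ)

/-- BMO (moments of the Euler product, uniformly in `w`). From BM1, BM2 (`hBm1 hBm2`). About 100 lines.

Proof. The left sides are products over `p` (`Finset.prod_univ_sum`): `∏_p E[b_p^k]`, `b_p = (1 - n_p/p)/(1 - 1/p)`. (1), (2): BM1. (3) BM1: the primes `p ≤ k + 1` contribute at most
`(∏_{p ≤ k+1} p/(p-1))^k ≤ (2 √(k+2))^k`, the others at most `exp(4 k² ∑_{p > k+1} 1/p²) ≤ exp(4 k²/(k+1)) ≤ exp(4k)` (BM2, `K = k + 1`). -/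
def StBmo : Prop := (∀ w : ℕ,
  ∑ n ∈ Fintype.piFinset (fun p : Pw w => range (p.1 + 1)), (∏ p : Pw w, bw p.1 (n p)) * eu n = 1) ∧
  (∀ w : ℕ, ∑ n ∈ Fintype.piFinset (fun p : Pw w => range (p.1 + 1)), (∏ p : Pw w, bw p.1 (n p)) = 1) ∧
  ∀ k w : ℕ,
  ∑ n ∈ Fintype.piFinset (fun p : Pw w => range (p.1 + 1)), (∏ p : Pw w, bw p.1 (n p)) * eu n ^ k ≤
    (2 * Real.sqrt (k + 2) * Real.exp 4) ^ k

/-- FAC. No hypotheses. About 60 lines.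

Proof. `C(k,j) ≤ 2^k`, `k! ≥ (k/e)^k`: the expression is at most `(2 x 2 √(k+2) e^4 e/k)^k → 0`. -/
def StFac : Prop := ∀ (j : ℕ) (x ε : ℝ), 0 < x → 0 < ε → ∃ r : ℕ,
  2 * ((j + r + 1).choose j : ℝ) * (x ^ (j + r + 1) *
    (2 * Real.sqrt (((j + r + 1 : ℕ) : ℝ) + 2) * Real.exp 4) ^ (j + r + 1) / (j + r + 1).factorial) ≤ ε

/-- CLS (decomposition into classes). No hypotheses. About 80 lines. Model: `Helper6/PV/M_Upp.lean`.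

Proof. Every `c` is `lin W F g` for exactly one pair with `F ∈ [0,W)^(d+1)` (`F i = c i % W`, `g i = c i / W`). So `c ↦ (F, g)` is a bijection between the set on the left and the
union over `F` of the sets on the right (`Nat.card_congr`, `Nat.card_sigma`, or count finsets). -/
def StCls : Prop := ∀ (W H d : ℕ) (κ : ℝ), 1 ≤ W →
  ∀ (A : (Fin (d + 1) → ℤ) → Fin (d + 1) → ℤ) (h : (Fin (d + 1) → ℤ) → Fin (d + 1) → ℕ),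
  (∀ F ∈ Fintype.piFinset (fun _ : Fin (d + 1) => Ico (0 : ℤ) W), ∀ g : Fin (d + 1) → ℤ,
    g ∈ Bx (A F) (h F) ↔
      (lin W F g ∈ Bxx d H ∧ κ * H ≤ ((lin W F g (Fin.last d) : ℤ) : ℝ))) →
  ∀ Q : (Fin (d + 1) → ℤ) → Prop,
  Nat.card {c : Fin (d + 1) → ℤ // c ∈ Bxx d H ∧ κ * H ≤ ((c (Fin.last d) : ℤ) : ℝ) ∧ Q c} =
    ∑ F ∈ Fintype.piFinset (fun _ : Fin (d + 1) => Ico (0 : ℤ) W),
      Nat.card {g : Fin (d + 1) → ℤ // g ∈ Bx (A F) (h F) ∧ Q (lin W F g)}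

/-- TOT (the law over all classes). From LC1, EUL, UNI, BXC, BMO, FAC, SER, BOX, CLS, CAR
(`hLc1 hEul hUni hBxc hBmo hFac hSer hBox hCls hCar`, in this order). About 300 lines.

Proof. Assume `ε ≤ 1`. `r` from FAC (`ε/8`), `K = j + r + 1`, `κ₀ = ε/16`, `w₀` from LC1 (`ε/8`). `W = primorial w`. BOX for every `F ∈ [0,W)^(d+1)`, CLS with
`Q c = (∀ p ∈ Pw w, Nz c p < p) ∧ nP c .. = j`; `Nz (lin W F g) p = Nz F p` for `p ∈ Pw w`, so with `good F` = `∀ p ∈ Pw w, Nz F p < p` the number in question is `∑_{F good} #{g ∈ Bx : nP = j}`.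
LC1 and EUL (`b_F = Rc/φ = eu (Nz F)`): `= ∑_{F good} (pois j (x b_F) ± (ε/8 + μ b_F + 2 C(K,j) (x b_F)^K/K!)) ∏ h_F`. BXC (`ε/8`): `|∏ h_F - #Bxx/W^(d+1)| ≤ (ε/8) #Bxx/W^(d+1)`,
`0 ≤ pois ≤ 1`. UNI with `G n = [n_p < p ∀ p] pois j (x eu n)` gives `Pst w · LawW w j x` (the sum over `n_p ≤ p - 1`; `1 - (1/p)^p ≠ 0`), UNI with `1`, `eu`, `eu^K` and BMO, FAC give the
error terms `≤ 2 (ε/8 + μ + ε/8)`; total `≤ ε/2 + ε/8 + ε/8`. Second part: the same with `Q c = (∀ p ∈ Pw w, Nz c p < p)` (number of `g` = `∏ h_F`, CAR; `UNI` with `G n = [n_p < p ∀ p]` gives `Pst w`: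
`∑_{n < p} bw p n = 1 - (1/p)^p`). -/
def StTot : Prop := ∀ (j : ℕ) (ε x : ℝ), 0 < ε → 0 < x → ∃ (K w₀ : ℕ) (κ₀ : ℝ), 0 < κ₀ ∧
  ∀ w : ℕ, w₀ ≤ w → ∀ κ μ : ℝ, 0 < κ → κ ≤ κ₀ → κ ≤ 1 / 4 → 0 < μ → μ ≤ κ₀ → μ < x →
  ∃ H₀ : ℕ, ∀ H : ℕ, H₀ ≤ H → ∀ d : ℕ, w + K ≤ d → (Real.log H + d) ^ (40 * (K + 1)) ≤ H →
  |(Nat.card {c : Fin (d + 1) → ℤ // c ∈ Bxx d H ∧ κ * H ≤ ((c (Fin.last d) : ℤ) : ℝ) ∧
      (∀ p ∈ Pw w, Nz c p < p) ∧ nP c (μ * Sz H d) (x * Sz H d) = j} : ℝ) -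
    Pst w * LawW w j x * #(Bxx d H)| ≤ ε * #(Bxx d H) ∧
  |(Nat.card {c : Fin (d + 1) → ℤ // c ∈ Bxx d H ∧ κ * H ≤ ((c (Fin.last d) : ℤ) : ℝ) ∧
      (∀ p ∈ Pw w, Nz c p < p)} : ℝ) - Pst w * #(Bxx d H)| ≤ ε * #(Bxx d H)

/-- LWB (bounds for the law). From SER, BM1 (`hSer hBm1`). About 60 lines.

Proof. The weights `bw p n/(1 - (1/p)^p)`, `n < p`, are `≥ 0` and sum to `1` (`bw p p = (1/p)^p`, BM1), so their products sum to `1` (`Finset.prod_univ_sum`); `0 ≤ pois ≤ 1` (SER, `eu n ≥ 0`). -/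
def StLwb : Prop := ∀ (w j : ℕ) (x : ℝ), 0 ≤ x → 0 ≤ LawW w j x ∧ LawW w j x ≤ 1 ∧ 0 ≤ Pst w ∧ Pst w ≤ 1

/-- STW (large fixed prime divisors are rare). From SA1 (`hSa1 : StSa1`). About 120 lines. Model: `Helper94/PV/M_Sta.lean`.

Proof. If not `NFD c`, some prime `p` divides all values; `p > w` by the condition on `Nz` (a prime `p` divides all values iff `Nz c p = p`). So `p | c_0`, `p | ∑ c_i - c_0`;
`p ≤ H` or `c_0 = 0`. SA1 and `∑_{w < p ≤ H} (1/p + 1/(2H+1))(1/p + 1/H) + 1/(2H+1) ≤ 1/w + 3 (1 + log H)/H ≤ ε`. -/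
def StStw : Prop := ∀ ε : ℝ, 0 < ε → ∃ w₀ : ℕ, ∀ w : ℕ, w₀ ≤ w → ∃ H₀ : ℕ, ∀ H : ℕ, H₀ ≤ H →
  ∀ d : ℕ, 1 ≤ d →
  (Nat.card {c : Fin (d + 1) → ℤ // c ∈ Bxx d H ∧ (∀ p ∈ Pw w, Nz c p < p) ∧ ¬ NFD c} : ℝ) ≤
    ε * #(Bxx d H)

/-- FI1 (fixed `w`). From TOT, STW, TOP, LOW (`hTot hStw hTop hLow`). About 200 lines.

Proof. `K, w₀, κ₀` from TOT with `ε/4` (and `w₀ ≥` the one of STW with `ε/4`), `κ = min κ₀ (min (1/4) (ε/4))`, `μ = min κ₀ (min c' (x/2))` with `c'` from LOW (`ε/4`). The two sets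
`{NFD c, nP c 0 (xS) = j}` and `{κH ≤ c_d, Nz c p < p ∀ p ∈ Pw w, nP c (μS) (xS) = j}` (inside `Bxx d H`) differ only by `c` with `c_d < κH` (TOP), by `c` with a prime value at some `1 ≤ m ≤ μS` (LOW; otherwise
`nP c (μS) (xS) = nP c 0 (xS)`; `d log H ≤ Λ² ≤ H^(1/3)`) and by `c` with `Nz c p < p ∀ p ∈ Pw w`, not `NFD` (STW); `NFD c` implies `Nz c p < p` for all primes. The same for the second part. -/
def StFi1 : Prop := ∀ (j : ℕ) (ε x : ℝ), 0 < ε → 0 < x → ∃ K w₀ : ℕ, ∀ w : ℕ, w₀ ≤ w →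
  ∃ H₀ : ℕ, ∀ H : ℕ, H₀ ≤ H → ∀ d : ℕ, w + K ≤ d → (Real.log H + d) ^ (40 * (K + 1)) ≤ H →
  |(Nat.card {v : Fin (d + 1) → ℤ // v ∈ Bxx d H ∧ NFD v ∧ nP v 0 (x * Sz H d) = j} : ℝ) -
    Pst w * LawW w j x * #(Bxx d H)| ≤ ε * #(Bxx d H) ∧
  |(Nat.card {v : Fin (d + 1) → ℤ // v ∈ Bxx d H ∧ NFD v} : ℝ) - Pst w * #(Bxx d H)| ≤ ε * #(Bxx d H)

/-- FIN (the theorem for vectors). From FI1, LWB, STA (`hFi1 hLwb hSta`). About 150 lines.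

Proof. `A = #{NFD, nP = j}`, `D = #{NFD} ≥ #Bxx/2` (STA). By FI1 (`ε`) and LWB `|A - L_w D| ≤ 2 ε #Bxx ≤ 4 ε D`, `L_w = LawW w j x`, so `|A/D - L_w| ≤ 4 ε` for all `w ≥ w₀(ε)`, `d ≥ w + K`, `H ≥ H₀(w)`,
`Λ^(40(K+1)) ≤ H`. For `w, w' ≥ w₀(ε)` take a common pair `d, H` (`d = max w w' + K`, then `H` large): `|L_w - L_w'| ≤ 8 ε`, so `w ↦ LawW w j x` is a Cauchy sequence; `L` its limit. Given `ε`, take `w` with
`|L_w - L| ≤ ε/2`, `w ≥ w₀(ε/8)`. Last, `(d : ℝ) ≤ H^c`, `c = 1/(80(K+1))`, gives `Λ ≤ 2 H^c`, `Λ^(40(K+1)) ≤ 2^(40(K+1)) H^(1/2) ≤ H` for `H` large. -/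
def StFin : Prop := ∀ (j : ℕ) (x : ℝ), 0 < x → ∃ L : ℝ,
  Filter.Tendsto (fun w => LawW w j x) Filter.atTop (nhds L) ∧
  ∀ ε : ℝ, 0 < ε → ∃ (c : ℝ) (D₀ H₀ : ℕ), 0 < c ∧ ∀ d H : ℕ, D₀ ≤ d → H₀ ≤ H →
    (d : ℝ) ≤ (H : ℝ) ^ c →
    |(Nat.card {v : Fin (d + 1) → ℤ // v ∈ Bxx d H ∧ NFD v ∧ nP v 0 (x * Sz H d) = j} : ℝ) /
      Nat.card {v : Fin (d + 1) → ℤ // v ∈ Bxx d H ∧ NFD v} - L| ≤ ε

end Pool.Agent.Helper93.PL
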